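import Mathlib
import Pool.Agent.Lib.MP_e24151_co.Density

set_option autoImplicit false

namespace Pool.Agent.Results.MP_e24151_co.ToughestHalf

open Filter Topology

/-- A shooting pattern is a 0-1 sequence indexed by the integers. -/
def IsPattern (x : ℤ → ℕ) : Prop := ∀ i, x i = 0 ∨ x i = 1

/-- The pattern `x` hits the ship `S = [S 0, ..., S (k-1)]`: every translate contains a shot. -/
def Hits {k : ℕ} (x : ℤ → ℕ) (S : Fin k → ℤ) : Prop := ∀ t : ℤ, 1 ≤ ∑ j, x (t + S j)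

/-- The symmetric density of the pattern `x` exists and equals `δ`. -/
def HasDensity (x : ℤ → ℕ) (δ : ℝ) : Prop :=
  Tendsto (fun N : ℕ => (1 / (2 * (N : ℝ) + 1)) * ∑ i ∈ Finset.Icc (-(N : ℤ)) N, (x i : ℝ))
    atTop (𝓝 δ)

/-- The least density of a pattern hitting all ships of the family `F`. -/
noncomputable def piercing {n k : ℕ} (F : Fin n → Fin k → ℤ) : ℝ :=
  sInf {δ : ℝ | ∃ x : ℤ → ℕ, IsPattern x ∧ HasDensity x δ ∧ ∀ i, Hits x (F i)}

/-- The density needed for the toughest families of `n` ships of size `k`; a `k`-ship is a strictly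
increasing `k`-tuple of integers. -/
noncomputable def toughest (n k : ℕ) : ℝ :=
  sSup {y : ℝ | ∃ F : Fin n → Fin k → ℤ, (∀ i, StrictMono (F i)) ∧ y = piercing F}

lemma sum_eq_ncard (x : ℤ → ℕ) (hx : IsPattern x) (N : ℕ) :
    ∑ i ∈ Finset.Icc (-(N : ℤ)) N, (x i : ℝ) =
      (({t : ℤ | x t = 1} ∩ Set.Icc (-(N : ℤ)) N).ncard : ℝ) := by
  rw [Lib.MP_e24151_co.ncard_eq, Finset.card_filter]
  push_cast
  apply Finset.sum_congr rfl
  intro i _
  rcases hx i with h | h <;> simp [h]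

lemma hasDensity_iff (x : ℤ → ℕ) (hx : IsPattern x) (δ : ℝ) :
    HasDensity x δ ↔ Tendsto (fun n : ℕ => (({t : ℤ | x t = 1} ∩ Set.Icc (-(n : ℤ)) n).ncard : ℝ)
      / (2 * n + 1)) atTop (𝓝 δ) := by
  unfold HasDensity
  apply Iff.of_eq
  congr 1
  funext n
  rw [sum_eq_ncard x hx]
  ring

lemma density_nonneg (x : ℤ → ℕ) (δ : ℝ) (h : HasDensity x δ) : 0 ≤ δ := by
  refine ge_of_tendsto' h (fun n => ?_)
  positivity

lemma hits_three (x : ℤ → ℕ) (hx : IsPattern x) (S : Fin 3 → ℤ) :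
    Hits x S ↔ ∀ t, x (t + S 0) = 1 ∨ x (t + S 1) = 1 ∨ x (t + S 2) = 1 := by
  unfold Hits
  apply forall_congr'
  intro t
  rw [Fin.sum_univ_three]
  rcases hx (t + S 0) with h0 | h0 <;> rcases hx (t + S 1) with h1 | h1 <;>
    rcases hx (t + S 2) with h2 | h2 <;> simp [h0, h1, h2]

/-- Every family of two 3-ships is hit by a pattern of density `1/2`. -/
lemma piercing_le (F : Fin 2 → Fin 3 → ℤ) (hF : ∀ i, StrictMono (F i)) : piercing F ≤ 1 / 2 := by
  classical
  have hne : ∀ i, F i 0 ≠ F i 1 ∧ F i 0 ≠ F i 2 ∧ F i 1 ≠ F i 2 := by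
    intro i
    have h01 : F i 0 < F i 1 := hF i (by decide)
    have h12 : F i 1 < F i 2 := hF i (by decide)
    exact ⟨h01.ne, (h01.trans h12).ne, h12.ne⟩
  obtain ⟨v1, w1, b1, e1, hb1, he1, hvw1, H1⟩ :=
    Lib.MP_e24151_co.exists_normal (F 0 0) (F 0 1) (F 0 2) (hne 0).1 (hne 0).2.1 (hne 0).2.2
  obtain ⟨v2, w2, b2, e2, hb2, he2, hvw2, H2⟩ :=
    Lib.MP_e24151_co.exists_normal (F 1 0) (F 1 1) (F 1 2) (hne 1).1 (hne 1).2.1 (hne 1).2.2
  obtain ⟨P, h, b, _, hN, hP1, hP2⟩ :=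
    Lib.MP_e24151_co.exists_pattern v1 w1 v2 w2 b1 e1 b2 e2 hb1 he1 hb2 he2 hvw1 hvw2
  set x : ℤ → ℕ := fun t => if P t then 1 else 0 with hx
  have hxp : IsPattern x := by
    intro i
    by_cases h : P i <;> simp [hx, h]
  have hx1 : ∀ t, x t = 1 ↔ P t := by
    intro t
    by_cases h : P t <;> simp [hx, h]
  apply csInf_le
  · exact ⟨0, fun δ ⟨y, _, hy, _⟩ => density_nonneg y δ hy⟩
  · refine ⟨x, hxp, ?_, ?_⟩
    · rw [hasDensity_iff x hxp]
      simp only [hx1]
      exact Lib.MP_e24151_co.nice_density P h b hN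
    · intro i
      rw [hits_three x hxp]
      simp only [hx1]
      fin_cases i
      · exact H1 P hP1
      · exact H2 P hP2

/-- The family consisting of `[0,1,2]` and `[0,1,3]`. -/
def F0 : Fin 2 → Fin 3 → ℤ := ![![0, 1, 2], ![0, 1, 3]]

lemma F0_mono : ∀ i, StrictMono (F0 i) := by
  intro i
  fin_cases i <;> rw [Fin.strictMono_iff_lt_succ] <;> intro j <;> fin_cases j <;> simp [F0]

lemma le_piercing : 1 / 2 ≤ piercing F0 := by
  apply le_csInf
  · refine ⟨1, fun _ => 1, fun _ => Or.inr rfl, ?_, ?_⟩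
    · unfold HasDensity
      have : (fun N : ℕ => (1 / (2 * (N : ℝ) + 1)) *
          ∑ i ∈ Finset.Icc (-(N : ℤ)) N, ((1 : ℕ) : ℝ)) = fun _ => (1 : ℝ) := by
        funext N
        rw [Finset.sum_const, Int.card_Icc, nsmul_eq_mul]
        have e : ((N : ℤ) + 1 - -(N : ℤ)).toNat = 2 * N + 1 := by omega
        rw [e]
        have : (2 * (N : ℝ) + 1) ≠ 0 := by positivity
        push_cast
        field_simp
      rw [this]
      exact tendsto_const_nhds
    · intro i t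
      simp
  · rintro δ ⟨x, hx, hδ, hH⟩
    rw [hasDensity_iff x hx] at hδ
    refine Lib.MP_e24151_co.lower_bound {t : ℤ | x t = 1} δ hδ ?_ ?_
    · intro t
      have := (hits_three x hx _).1 (hH 0) t
      simpa [F0] using this
    · intro t
      have := (hits_three x hx _).1 (hH 1) t
      simpa [F0] using this

/-- `M^2_3 = 1/2`. -/
theorem result : toughest 2 3 = 1 / 2 := by
  apply le_antisymm
  · apply csSup_le
    · exact ⟨_, F0, F0_mono, rfl⟩
    · rintro y ⟨F, hF, rfl⟩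
      exact piercing_le F hF
  · refine le_trans le_piercing (le_csSup ?_ ⟨F0, F0_mono, rfl⟩)
    refine ⟨1 / 2, ?_⟩
    rintro y ⟨F, hF, rfl⟩
    exact piercing_le F hF

end Pool.Agent.Results.MP_e24151_co.ToughestHalf
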